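import Pool.Agent.Helper76.TC.Goals

/-!
# Packet TC-XT (MP_ccd65d_gt, project TC of helper76)

The torus of a periodic metric on `ℝⁿ` as an abstract quotient.
-/

set_option autoImplicit false

open Set Filter Topology

namespace Pool.Agent.Helper14.TC.XT

open Pool.Agent.Helper50.CT (rv Cov Sh IsQuot StmtQ0)
open Pool.Agent.Helper76.TC

/-- A copy of `ℝⁿ`, to be equipped with the metric `d`. -/
structure Pt (n : ℕ) where
  /-- the underlying vector -/
  v : Fin n → ℝ

/-- The metric `d` on the copy of `ℝⁿ`. -/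
@[reducible] noncomputable def metr (n : ℕ) (A : ℝ) (d : (Fin n → ℝ) → (Fin n → ℝ) → ℝ)
    (h : TorusMetric n A d) : MetricSpace (Pt n) where
  dist x y := d x.v y.v
  dist_self x := by
    obtain ⟨c, C, hc, hb⟩ := h.bilip
    have h1 := hb x.v x.v
    simp only [sub_self, norm_zero, mul_zero] at h1
    exact le_antisymm h1.2 h1.1
  dist_comm x y := h.symm _ _
  dist_triangle x y z := h.triangle _ _ _
  eq_of_dist_eq_zero := by
    intro x y hxy
    obtain ⟨c, C, hc, hb⟩ := h.bilip
    have h1 := (hb x.v y.v).1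
    have h2 : d x.v y.v = 0 := hxy
    rw [h2] at h1
    have h3 : ‖x.v - y.v‖ ≤ 0 := by
      by_contra h4
      push Not at h4
      have := mul_pos hc h4
      linarith
    have h4 : x.v = y.v := sub_eq_zero.1 (norm_le_zero_iff.1 h3)
    cases x; cases y; simpa using h4

instance (n : ℕ) : AddAction (Fin n → ℤ) (Pt n) where
  vadd k x := ⟨rv k + x.v⟩
  zero_vadd x := by
    change (⟨rv 0 + x.v⟩ : Pt n) = x
    have : rv (0 : Fin n → ℤ) = 0 := by
      funext i; simp [rv]
    rw [this, zero_add]
  add_vadd k k' x := by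
    change (⟨rv (k + k') + x.v⟩ : Pt n) = ⟨rv k + (rv k' + x.v)⟩
    have : rv (k + k') = rv k + rv k' := by
      funext i; simp [rv]
    rw [this, add_assoc]

theorem vadd_v {n : ℕ} (k : Fin n → ℤ) (x : Pt n) : (k +ᵥ x).v = rv k + x.v := rfl

theorem v_inj {n : ℕ} : Function.Injective (fun x : Pt n => x.v) := by
  intro x y h
  cases x; cases y; simpa using h

/-- **Packet TC-XT.** -/
theorem t (hQ0 : StmtQ0) : S_XT := by
  intro n A C₀ N R0 l δ habs d hd hpack hnear
  obtain ⟨T, _, _, _, _, π, hT, hlt⟩ := hnear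
  let _ : MetricSpace (Pt n) := metr n A d hd
  have hdist : ∀ x y : Pt n, dist x y = d x.v y.v := fun _ _ => rfl
  obtain ⟨c, C, hc, hb⟩ := hd.bilip
  -- the homeomorphism
  have hc1 : Continuous (fun x : Fin n → ℝ => (⟨x⟩ : Pt n)) := by
    refine (LipschitzWith.of_dist_le_mul (K := (max C 0).toNNReal) ?_).continuous
    intro x y
    rw [hdist, Real.coe_toNNReal _ (le_max_right _ _), dist_eq_norm]
    refine (hb x y).2.trans ?_
    exact mul_le_mul_of_nonneg_right (le_max_left _ _) (norm_nonneg _)
  have hc2 : Continuous (fun x : Pt n => x.v) := by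
    refine (LipschitzWith.of_dist_le_mul (K := (1 / c).toNNReal) ?_).continuous
    intro x y
    rw [hdist, Real.coe_toNNReal _ (by positivity), dist_eq_norm, div_mul_eq_mul_div, one_mul,
      le_div_iff₀ hc, mul_comm]
    exact (hb x.v y.v).1
  let e : Pt n ≃ₜ (Fin n → ℝ) :=
    { toFun := fun x => x.v
      invFun := fun x => ⟨x⟩
      left_inv := fun x => rfl
      right_inv := fun x => rfl
      continuous_toFun := hc2
      continuous_invFun := hc1 }
  have : ContractibleSpace (Pt n) := e.contractibleSpace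
  have : SimplyConnectedSpace (Pt n) := SimplyConnectedSpace.ofContractible _
  have : ProperSpace (Pt n) := by
    refine ⟨fun x r => ?_⟩
    rw [← e.symm.isCompact_preimage]
    refine (isCompact_closedBall x.v (r / c)).of_isClosed_subset
      (Metric.isClosed_closedBall.preimage hc1) ?_
    intro y hy
    have h1 : d y x.v ≤ r := hy
    rw [Metric.mem_closedBall, dist_eq_norm, le_div_iff₀ hc, mul_comm]
    exact (hb y x.v).1.trans h1
  have hquot : IsQuot n (Pt n) T (fun x => π x.v) := by
    refine ⟨?_, ?_, ?_, ?_⟩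
    · intro k x y
      exact hd.periodic k x.v y.v
    · intro t
      obtain ⟨x, hx⟩ := hT.surj t
      exact ⟨⟨x⟩, hx⟩
    · intro x y
      exact hT.quot x.v y.v
    · refine ⟨c, hc, ?_⟩
      intro x k hk
      have h1 := (hb x.v (rv k + x.v)).1
      rw [hdist, vadd_v]
      refine le_trans ?_ h1
      have h2 : x.v - (rv k + x.v) = - rv k := by abel
      rw [h2, norm_neg]
      have h3 : 1 ≤ ‖(rv k : Fin n → ℝ)‖ := by
        obtain ⟨i, hi⟩ : ∃ i, k i ≠ 0 := by
          by_contra h
          push Not at h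
          exact hk (funext h)
        refine le_trans ?_ (norm_le_pi_norm (rv k) i)
        simp only [rv, Real.norm_eq_abs]
        have : (1 : ℤ) ≤ |k i| := Int.one_le_abs hi
        exact_mod_cast this
      nlinarith
  have hcov : Cov n (Pt n) T (fun x => π x.v) := hQ0 n (Pt n) T _ hquot
  have hturn : Turn A (Pt n) := by
    intro x y
    obtain ⟨γ, hγ⟩ := hd.turn x.v y.v
    refine ⟨γ.map hc1, fun s => ?_⟩
    have h1 : d x.v (γ s) ≤ A * d x.v y.v := hγ s
    rw [Metric.mem_closedBall, dist_comm]
    exact h1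
  have hpackX : PackX C₀ N R0 (Pt n) := by
    classical
    intro x r R hr hrR hR F hF1 hF2
    have h1 := hpack x.v r R hr hrR hR (F.image fun y => y.v) ?_ ?_
    · rwa [Finset.card_image_of_injective _ v_inj] at h1
    · intro y hy
      obtain ⟨z, hz, rfl⟩ := Finset.mem_image.1 hy
      exact hF1 z hz
    · intro y hy z hz hyz
      obtain ⟨y', hy', rfl⟩ := Finset.mem_image.1 hy
      obtain ⟨z', hz', rfl⟩ := Finset.mem_image.1 hz
      refine hF2 y' hy' z' hz' ?_
      rintro rfl
      exact hyz rfl
  have hfin := habs (Pt n) T (fun x => π x.v) e.symm (fun k x => rfl) hcov hturn hpackX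
  exact absurd hlt (not_lt.2 hfin)

end Pool.Agent.Helper14.TC.XT
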